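import Mathlib

/-!
# Generalized robustness of toric ideals passes to elimination ideals (MP_1df74f_al, Q1)
-/

namespace Pool.Agent.Results.MP_1df74f_al.Eliminate

open MvPolynomial

universe u v

section Defs

variable (k : Type v) [Field k] {d : ℕ} {σ : Type u}

/-- the `k`-algebra map `x_i ↦ t^(a_i)` into the Laurent polynomial ring (the group algebra of
`ℤ^d`). -/
noncomputable def toricMap (a : σ → Fin d → ℤ) :
    MvPolynomial σ k →ₐ[k] AddMonoidAlgebra k (Fin d → ℤ) :=
  aeval (fun i => AddMonoidAlgebra.single (a i) (1 : k))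

/-- the toric ideal `I_A`. -/
noncomputable def toricIdeal (a : σ → Fin d → ℤ) : Ideal (MvPolynomial σ k) :=
  RingHom.ker (toricMap k a)

variable {k}

/-- a binomial `x^u - x^v`. -/
def IsBinomial (f : MvPolynomial σ k) : Prop :=
  ∃ u v : σ →₀ ℕ, f = monomial u (1 : k) - monomial v (1 : k)

/-- `S` is a minimal generating set of the ideal `I`. -/
def IsMinGen (I : Ideal (MvPolynomial σ k)) (S : Set (MvPolynomial σ k)) : Prop :=
  Ideal.span S = I ∧ ∀ T : Set (MvPolynomial σ k), T ⊂ S → Ideal.span T ≠ I

/-- `G` is a reduced Groebner basis of `I` with respect to the monomial order `m`. -/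
def IsReducedGroebner (m : MonomialOrder.{u, u} σ) (I : Ideal (MvPolynomial σ k))
    (G : Set (MvPolynomial σ k)) : Prop :=
  G ⊆ (I : Set (MvPolynomial σ k)) ∧
  Ideal.span (m.leadingTerm '' G) = Ideal.span (m.leadingTerm '' (I : Set (MvPolynomial σ k))) ∧
  (∀ g ∈ G, m.leadingCoeff g = 1) ∧
  (∀ g ∈ G, ∀ h ∈ G, h ≠ g → ∀ c ∈ g.support, ¬ m.degree h ≤ c)

variable (k)

/-- the universal Markov basis: the union of all minimal generating sets of `I_A` that consist of
binomials. -/
def universalMarkov (a : σ → Fin d → ℤ) : Set (MvPolynomial σ k) :=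
  {f | ∃ S : Set (MvPolynomial σ k),
    (∀ g ∈ S, IsBinomial g) ∧ IsMinGen (toricIdeal k a) S ∧ f ∈ S}

/-- the universal Groebner basis: the union of the reduced Groebner bases of `I_A` over all
monomial orders. -/
def universalGroebner (a : σ → Fin d → ℤ) : Set (MvPolynomial σ k) :=
  {f | ∃ (m : MonomialOrder.{u, u} σ) (G : Set (MvPolynomial σ k)),
    IsReducedGroebner m (toricIdeal k a) G ∧ f ∈ G}

/-- `I_A` is generalized robust. -/
def GeneralizedRobust (a : σ → Fin d → ℤ) : Prop :=
  universalGroebner k a = universalMarkov k a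

/-- the same with binomials taken up to sign. -/
def GeneralizedRobustUpToSign (a : σ → Fin d → ℤ) : Prop :=
  ∀ f : MvPolynomial σ k, (f ∈ universalGroebner k a ∨ -f ∈ universalGroebner k a) ↔
    (f ∈ universalMarkov k a ∨ -f ∈ universalMarkov k a)

end Defs

section Basic

variable {k : Type v} [Field k] {d : ℕ} {σ : Type u}

/-- the `A`-degree of an exponent vector. -/
noncomputable def deg (a : σ → Fin d → ℤ) : (σ →₀ ℕ) →+ (Fin d → ℤ) :=
  (Finsupp.linearCombination ℕ a).toAddMonoidHom

lemma deg_apply (a : σ → Fin d → ℤ) (u : σ →₀ ℕ) : deg a u = u.sum fun i n => n • a i := rfl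

lemma toricMap_monomial (a : σ → Fin d → ℤ) (u : σ →₀ ℕ) (c : k) :
    toricMap k a (monomial u c) = AddMonoidAlgebra.single (deg a u) c := by
  rw [toricMap, aeval_monomial, deg_apply]
  simp only [AddMonoidAlgebra.single_pow, one_pow]
  have h := AddMonoidAlgebra.finsuppProd_single u (fun i (n : ℕ) => n • a i)
    (fun _ _ => (1 : k))
  rw [h]
  have h2 : (u.prod fun _ _ => (1 : k)) = 1 := by simp [Finsupp.prod]
  rw [h2]
  have h3 : (algebraMap k (AddMonoidAlgebra k (Fin d → ℤ))) c
      = AddMonoidAlgebra.single 0 c := rfl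
  rw [h3, AddMonoidAlgebra.single_mul_single, zero_add, mul_one]

/-- a binomial lies in the toric ideal as soon as its two monomials have the same degree. -/
lemma sub_mem (a : σ → Fin d → ℤ) {u v : σ →₀ ℕ} (h : deg a u = deg a v) :
    (monomial u (1 : k) - monomial v (1 : k)) ∈ toricIdeal k a := by
  rw [toricIdeal, RingHom.mem_ker, map_sub, toricMap_monomial, toricMap_monomial, h, sub_self]

/-- linear maps out of the Laurent polynomial ring. -/
noncomputable def liftFun {V : Type*} [AddCommGroup V] [Module k V] (h : (Fin d → ℤ) → V) :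
    AddMonoidAlgebra k (Fin d → ℤ) →ₗ[k] V :=
  (Finsupp.linearCombination k h) ∘ₗ
    (AddMonoidAlgebra.coeffLinearEquiv (M := Fin d → ℤ) (S := k) k).toLinearMap

lemma liftFun_single {V : Type*} [AddCommGroup V] [Module k V] (h : (Fin d → ℤ) → V)
    (b : Fin d → ℤ) (c : k) :
    liftFun h (AddMonoidAlgebra.single b c) = c • h b := by
  have : (AddMonoidAlgebra.coeffLinearEquiv (M := Fin d → ℤ) (S := k) k)
      (AddMonoidAlgebra.single b c) = Finsupp.single b c := rfl
  simp only [liftFun, LinearMap.comp_apply, LinearEquiv.coe_coe, this,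
    Finsupp.linearCombination_single]

lemma liftFun_toricMap {V : Type*} [AddCommGroup V] [Module k V] (a : σ → Fin d → ℤ)
    (h : (Fin d → ℤ) → V) (g : MvPolynomial σ k) :
    liftFun h (toricMap k a g) = ∑ p ∈ g.support, coeff p g • h (deg a p) := by
  conv_lhs => rw [← support_sum_monomial_coeff g]
  rw [map_sum, map_sum]
  refine Finset.sum_congr rfl fun p _ => ?_
  rw [toricMap_monomial, liftFun_single]

/-- the coefficients of an element of the toric ideal sum up to zero on every fibre. -/
lemma fiber_sum [DecidableEq (Fin d → ℤ)] (a : σ → Fin d → ℤ) {g : MvPolynomial σ k}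
    (hg : g ∈ toricIdeal k a) (b : Fin d → ℤ) :
    ∑ p ∈ g.support with deg a p = b, coeff p g = 0 := by
  have h := liftFun_toricMap a (fun b' => if b' = b then (1 : k) else 0) g
  rw [toricIdeal, RingHom.mem_ker] at hg
  rw [hg, map_zero] at h
  rw [Finset.sum_filter]
  refine Eq.trans ?_ h.symm
  refine Finset.sum_congr rfl fun p _ => ?_
  by_cases hp : deg a p = b <;> simp [hp]

/-- the toric ideal is generated by its binomials. -/
lemma mem_span_binomials (a : σ → Fin d → ℤ) {g : MvPolynomial σ k}
    (hg : g ∈ toricIdeal k a) :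
    g ∈ Ideal.span {f : MvPolynomial σ k | ∃ u v : σ →₀ ℕ, deg a u = deg a v ∧
      f = monomial u (1 : k) - monomial v (1 : k)} := by
  classical
  let r : (Fin d → ℤ) → (σ →₀ ℕ) := fun b => if h : ∃ u, deg a u = b then h.choose else 0
  have hr : ∀ u, deg a (r (deg a u)) = deg a u := by
    intro u
    have h : ∃ v, deg a v = deg a u := ⟨u, rfl⟩
    have : r (deg a u) = h.choose := dif_pos h
    rw [this]
    exact h.choose_spec
  have h := liftFun_toricMap a (fun b => monomial (r b) (1 : k)) g
  have hg' := hg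
  rw [toricIdeal, RingHom.mem_ker] at hg'
  rw [hg', map_zero] at h
  have h1 : g = ∑ p ∈ g.support, coeff p g • (monomial p (1 : k) -
      monomial (r (deg a p)) (1 : k)) := by
    simp only [smul_sub, Finset.sum_sub_distrib, ← h, sub_zero]
    conv_lhs => rw [← support_sum_monomial_coeff g]
    refine Finset.sum_congr rfl fun p _ => ?_
    rw [smul_monomial, smul_eq_mul, mul_one]
  rw [h1]
  refine Submodule.sum_mem _ fun p _ => ?_
  rw [smul_eq_C_mul]
  exact Ideal.mul_mem_left _ _ (Ideal.subset_span ⟨p, _, (hr p).symm, rfl⟩)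

lemma span_binomials (a : σ → Fin d → ℤ) :
    Ideal.span {f : MvPolynomial σ k | ∃ u v : σ →₀ ℕ, deg a u = deg a v ∧
      f = monomial u (1 : k) - monomial v (1 : k)} = toricIdeal k a := by
  apply le_antisymm
  · rw [Ideal.span_le]
    rintro f ⟨u, v, h, rfl⟩
    exact sub_mem a h
  · exact fun g hg => mem_span_binomials a hg

/-- a binomial of the toric ideal has monomials of the same degree. -/
lemma deg_eq_of_mem (a : σ → Fin d → ℤ) {u v : σ →₀ ℕ}
    (h : (monomial u (1 : k) - monomial v (1 : k)) ∈ toricIdeal k a) : deg a u = deg a v := by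
  classical
  rw [toricIdeal, RingHom.mem_ker, map_sub, toricMap_monomial, toricMap_monomial,
    sub_eq_zero] at h
  by_contra hne
  have h2 := congrArg (liftFun (fun b' => if b' = deg a u then (1 : k) else 0)) h
  rw [liftFun_single, liftFun_single] at h2
  simp [Ne.symm hne] at h2

/-- two binomials which are equal have the same exponents up to the order. -/
lemma binomial_eq {p q p' q' : σ →₀ ℕ} (hne : p ≠ q)
    (h : (monomial p (1 : k) - monomial q (1 : k)) =
      monomial p' (1 : k) - monomial q' (1 : k)) :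
    (p = p' ∧ q = q') ∨ (p = q' ∧ q = p') := by
  classical
  have hc : ∀ c : σ →₀ ℕ, ((if p = c then (1 : k) else 0) - (if q = c then (1 : k) else 0)) =
      ((if p' = c then (1 : k) else 0) - (if q' = c then (1 : k) else 0)) := by
    intro c
    have := congrArg (coeff c) h
    simpa only [coeff_sub, coeff_monomial] using this
  have h1 := hc p
  have h2 := hc q
  by_cases e1 : p = p'
  · left
    refine ⟨e1, ?_⟩
    subst e1
    rw [sub_right_inj] at h
    exact (monomial_left_inj (one_ne_zero)).mp h
  · by_cases e2 : p = q'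
    · right
      refine ⟨e2, ?_⟩
      by_contra e3
      subst e2
      simp only [if_neg hne, if_true, if_neg (Ne.symm e3), zero_sub] at h2
      simp at h2
    · exfalso
      simp only [if_true, if_neg (Ne.symm hne), if_neg (Ne.symm e1), if_neg (Ne.symm e2),
        sub_zero, one_ne_zero] at h1

end Basic

section Orders

/-- a type synonym which carries no order. -/
def Syn (τ : Type u) : Type u := τ →₀ ℕ

noncomputable instance (τ : Type u) : AddCommMonoid (Syn τ) :=
  inferInstanceAs (AddCommMonoid (τ →₀ ℕ))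

/-- the order on the type synonym. -/
noncomputable abbrev synOrder {τ : Type u} {L : Type*} [AddCommMonoid L] [LinearOrder L]
    (φ : (τ →₀ ℕ) →+ L) (hinj : Function.Injective φ) : LinearOrder (Syn τ) :=
  LinearOrder.lift' (fun x : Syn τ => φ x) hinj

/-- the monomial order obtained from an injective monotone additive map into a well ordered
cancellative monoid. -/
noncomputable def ofInj {τ : Type u} {L : Type*} [AddCommMonoid L] [LinearOrder L]
    [IsOrderedAddMonoid L] [WellFoundedLT L] (φ : (τ →₀ ℕ) →+ L)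
    (hinj : Function.Injective φ) (hmono : Monotone φ) : MonomialOrder.{u, u} τ where
  syn := Syn τ
  addCommMonoidSyn := inferInstance
  linearOrderSyn := synOrder φ hinj
  isOrderedAddMonoid_syn := by
    let _ : LinearOrder (Syn τ) := synOrder φ hinj
    refine { add_le_add_left := fun x y hxy z => ?_ }
    have h : φ x ≤ φ y := hxy
    have h2 : φ x + φ z ≤ φ y + φ z := add_le_add_left h _
    exact (le_of_eq (map_add φ x z)).trans (h2.trans (le_of_eq (map_add φ y z).symm))
  toSyn := (AddEquiv.refl (τ →₀ ℕ) : (τ →₀ ℕ) ≃+ (τ →₀ ℕ))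
  toSyn_monotone := fun x y hxy => hmono hxy
  wellFoundedLT_syn := by
    let _ : LinearOrder (Syn τ) := synOrder φ hinj
    exact ⟨InvImage.wf (fun x : Syn τ => φ x) (wellFounded_lt (α := L))⟩

lemma ofInj_le {τ : Type u} {L : Type*} [AddCommMonoid L] [LinearOrder L]
    [IsOrderedAddMonoid L] [WellFoundedLT L] (φ : (τ →₀ ℕ) →+ L)
    (hinj : Function.Injective φ) (hmono : Monotone φ) (x y : τ →₀ ℕ) :
    (ofInj φ hinj hmono).toSyn x ≤ (ofInj φ hinj hmono).toSyn y ↔ φ x ≤ φ y := Iff.rfl

lemma exists_refine {τ : Type u} {L : Type*} [AddCommMonoid L] [LinearOrder L]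
    [IsOrderedCancelAddMonoid L] [WellFoundedLT L] (φ : (τ →₀ ℕ) →+ L) (hmono : Monotone φ)
    (m : MonomialOrder.{u, u} τ) :
    ∃ m' : MonomialOrder.{u, u} τ, ∀ x y : τ →₀ ℕ, m'.toSyn x ≤ m'.toSyn y ↔
      (φ x < φ y ∨ (φ x = φ y ∧ m.toSyn x ≤ m.toSyn y)) := by
  let ψ : (τ →₀ ℕ) →+ (L ×ₗ m.syn) :=
    { toFun := fun x => toLex (φ x, m.toSyn x)
      map_zero' := by simp only [map_zero]; rfl
      map_add' := fun x y => by simp only [map_add]; rfl }
  have hinj : Function.Injective ψ := by
    intro x y h
    have h2 : (φ x, m.toSyn x) = (φ y, m.toSyn y) := h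
    exact m.toSyn.injective (Prod.mk.inj h2).2
  have hm : Monotone ψ := by
    intro x y h
    have h2 : toLex (φ x, m.toSyn x) ≤ toLex (φ y, m.toSyn y) := by
      rw [Prod.Lex.le_iff]
      rcases (hmono h).lt_or_eq with h3 | h3
      · exact Or.inl h3
      · exact Or.inr ⟨h3, m.toSyn_monotone h⟩
    exact h2
  refine ⟨ofInj ψ hinj hm, fun x y => ?_⟩
  rw [ofInj_le]
  exact Prod.Lex.le_iff

lemma exists_order (τ : Type u) [Finite τ] : Nonempty (MonomialOrder.{u, u} τ) := by
  classical
  obtain ⟨n, ⟨e⟩⟩ := Finite.exists_equiv_fin τ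
  let _ : LinearOrder τ := LinearOrder.lift' e e.injective
  exact ⟨MonomialOrder.lex⟩

end Orders

section Groebner

variable {k : Type v} [Field k] {d : ℕ} {σ : Type u}

/-- `v` is the smallest vector of its fibre. -/
def Std (m : MonomialOrder.{u, u} σ) (a : σ → Fin d → ℤ) (v : σ →₀ ℕ) : Prop :=
  ∀ w, deg a w = deg a v → m.toSyn v ≤ m.toSyn w

/-- `v` is standard and `u` is a minimal nonstandard vector in the fibre of `v`. -/
def RG (m : MonomialOrder.{u, u} σ) (a : σ → Fin d → ℤ) (u v : σ →₀ ℕ) : Prop :=
  deg a u = deg a v ∧ Std m a v ∧ ¬ Std m a u ∧ ∀ w, w ≤ u → w ≠ u → Std m a w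

lemma exists_std (m : MonomialOrder.{u, u} σ) (a : σ → Fin d → ℤ) (u : σ →₀ ℕ) :
    ∃ v, deg a v = deg a u ∧ Std m a v := by
  obtain ⟨v, hv, hmin⟩ := WellFounded.has_min
    (InvImage.wf m.toSyn (wellFounded_lt (α := m.syn))) {v | deg a v = deg a u} ⟨u, rfl⟩
  refine ⟨v, hv, fun w hw => ?_⟩
  by_contra hlt
  rw [not_le] at hlt
  exact hmin w (show deg a w = deg a u from hw.trans hv) hlt

lemma std_of_le {m : MonomialOrder.{u, u} σ} {a : σ → Fin d → ℤ} {u v : σ →₀ ℕ}
    (h : Std m a v) (huv : u ≤ v) : Std m a u := by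
  intro w hw
  obtain ⟨c, rfl⟩ := le_iff_exists_add.mp huv
  have h2 : deg a (w + c) = deg a (u + c) := by rw [map_add, map_add, hw]
  have h3 := h _ h2
  rw [map_add, map_add] at h3
  exact le_of_add_le_add_right h3

lemma ne_of_std {m : MonomialOrder.{u, u} σ} {a : σ → Fin d → ℤ} {u v : σ →₀ ℕ}
    (hv : Std m a v) (hu : ¬ Std m a u) : u ≠ v := by
  rintro rfl
  exact hu hv

lemma std_unique {m : MonomialOrder.{u, u} σ} {a : σ → Fin d → ℤ} {u v : σ →₀ ℕ}
    (h : deg a u = deg a v) (hu : Std m a u) (hv : Std m a v) : u = v :=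
  m.toSyn.injective (le_antisymm (hu v h.symm) (hv u h))

/-- every nonstandard vector dominates a minimal nonstandard vector. -/
lemma exists_minimal {m : MonomialOrder.{u, u} σ} {a : σ → Fin d → ℤ} {u : σ →₀ ℕ}
    (hu : ¬ Std m a u) : ∃ w, w ≤ u ∧ ¬ Std m a w ∧ ∀ x, x ≤ w → x ≠ w → Std m a x := by
  obtain ⟨w, hw, hmin⟩ := WellFounded.has_min
    (InvImage.wf m.toSyn (wellFounded_lt (α := m.syn))) {w | w ≤ u ∧ ¬ Std m a w}
    ⟨u, le_refl _, hu⟩
  refine ⟨w, hw.1, hw.2, fun x hx hne => ?_⟩
  by_contra hns
  refine hmin x ⟨hx.trans hw.1, hns⟩ ?_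
  exact lt_of_le_of_ne (m.toSyn_monotone hx) fun h => hne (m.toSyn.injective h)

lemma degree_binomial {m : MonomialOrder.{u, u} σ} {u v : σ →₀ ℕ}
    (h : m.toSyn v < m.toSyn u) :
    m.degree (monomial u (1 : k) - monomial v (1 : k)) = u := by
  classical
  have h1 : m.degree (monomial u (1 : k)) = u := by
    rw [MonomialOrder.degree_monomial, if_neg one_ne_zero]
  have h2 : m.degree (monomial v (1 : k)) = v := by
    rw [MonomialOrder.degree_monomial, if_neg one_ne_zero]
  rw [MonomialOrder.degree_sub_of_lt, h1]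
  rw [h1, h2]
  exact h

lemma leadingCoeff_binomial {m : MonomialOrder.{u, u} σ} {u v : σ →₀ ℕ}
    (h : m.toSyn v < m.toSyn u) :
    m.leadingCoeff (monomial u (1 : k) - monomial v (1 : k)) = 1 := by
  classical
  rw [MonomialOrder.leadingCoeff, degree_binomial h, coeff_sub, coeff_monomial, coeff_monomial,
    if_pos rfl, if_neg, sub_zero]
  rintro rfl
  exact lt_irrefl _ h

lemma support_binomial {u v c : σ →₀ ℕ}
    (h : c ∈ (monomial u (1 : k) - monomial v (1 : k)).support) : c = u ∨ c = v := by
  classical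
  rw [mem_support_iff, coeff_sub, coeff_monomial, coeff_monomial] at h
  by_cases h1 : u = c
  · exact Or.inl h1.symm
  · by_cases h2 : v = c
    · exact Or.inr h2.symm
    · simp [h1, h2] at h

/-- leading exponents of elements of the toric ideal are nonstandard. -/
lemma not_std_degree (m : MonomialOrder.{u, u} σ) (a : σ → Fin d → ℤ) {f : MvPolynomial σ k}
    (hf : f ∈ toricIdeal k a) (h0 : f ≠ 0) : ¬ Std m a (m.degree f) := by
  classical
  intro hstd
  have h := fiber_sum a hf (deg a (m.degree f))
  have hmem : m.degree f ∈ {p ∈ f.support | deg a p = deg a (m.degree f)} := by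
    rw [Finset.mem_filter]
    exact ⟨m.degree_mem_support h0, rfl⟩
  rw [Finset.sum_eq_single_of_mem _ hmem] at h
  · exact MonomialOrder.coeff_degree_ne_zero_iff.mpr h0 h
  · intro p hp hne
    rw [Finset.mem_filter] at hp
    exfalso
    apply hne
    apply m.toSyn.injective
    exact le_antisymm (m.le_degree hp.1) (hstd p hp.2)

lemma leadingTerm_span {m : MonomialOrder.{u, u} σ} (S : Set (MvPolynomial σ k)) :
    Ideal.span (m.leadingTerm '' S) =
      Ideal.span ((fun s => monomial s (1 : k)) '' (m.degree '' (S \ {0}))) := by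
  apply le_antisymm
  · rw [Ideal.span_le]
    rintro _ ⟨f, hf, rfl⟩
    by_cases h0 : f = 0
    · subst h0
      rw [MonomialOrder.leadingTerm_zero]
      exact Ideal.zero_mem _
    · have h1 : m.leadingTerm f = C (m.leadingCoeff f) * monomial (m.degree f) (1 : k) := by
        rw [MonomialOrder.leadingTerm, C_mul_monomial, mul_one]
      rw [h1]
      refine Ideal.mul_mem_left _ _ (Ideal.subset_span ⟨_, ⟨f, ⟨hf, h0⟩, rfl⟩, rfl⟩)
  · rw [Ideal.span_le]
    rintro _ ⟨_, ⟨f, ⟨hf, h0⟩, rfl⟩, rfl⟩
    have h1 : monomial (m.degree f) (1 : k) = C (m.leadingCoeff f)⁻¹ * m.leadingTerm f := by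
      rw [MonomialOrder.leadingTerm, C_mul_monomial, inv_mul_cancel₀]
      rw [Ne, MonomialOrder.leadingCoeff_eq_zero_iff]
      exact h0
    change monomial (m.degree f) (1 : k) ∈ _
    rw [h1]
    exact Ideal.mul_mem_left _ _ (Ideal.subset_span ⟨f, hf, rfl⟩)

/-- the standard elementary form of the Groebner property. -/
lemma groebner_iff {m : MonomialOrder.{u, u} σ} {I : Ideal (MvPolynomial σ k)}
    {G : Set (MvPolynomial σ k)} (hG : G ⊆ (I : Set (MvPolynomial σ k))) :
    Ideal.span (m.leadingTerm '' G) = Ideal.span (m.leadingTerm '' (I : Set (MvPolynomial σ k)))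
      ↔ ∀ f ∈ I, f ≠ 0 → ∃ g ∈ G, g ≠ 0 ∧ m.degree g ≤ m.degree f := by
  classical
  constructor
  · intro h f hf h0
    have h1 : monomial (m.degree f) (1 : k) ∈
        Ideal.span (m.leadingTerm '' (I : Set (MvPolynomial σ k))) := by
      rw [leadingTerm_span]
      exact Ideal.subset_span ⟨_, ⟨f, ⟨hf, h0⟩, rfl⟩, rfl⟩
    rw [← h, leadingTerm_span, mem_ideal_span_monomial_image] at h1
    obtain ⟨_, ⟨g, ⟨hg, hg0⟩, rfl⟩, hle⟩ := h1 (m.degree f) (by
      rw [mem_support_iff, coeff_monomial, if_pos rfl]
      exact one_ne_zero)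
    exact ⟨g, hg, hg0, hle⟩
  · intro h
    apply le_antisymm
    · exact Ideal.span_mono (Set.image_mono hG)
    · rw [leadingTerm_span (m := m) (I : Set (MvPolynomial σ k)), Ideal.span_le]
      rintro _ ⟨_, ⟨f, ⟨hf, h0⟩, rfl⟩, rfl⟩
      obtain ⟨g, hg, hg0, hle⟩ := h f hf h0
      rw [leadingTerm_span]
      refine mem_ideal_span_monomial_image.mpr ?_
      intro c hc
      refine ⟨m.degree g, ⟨g, ⟨hg, hg0⟩, rfl⟩, ?_⟩
      rw [mem_support_iff, coeff_monomial] at hc
      by_cases h2 : m.degree f = c
      · rw [← h2]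
        exact hle
      · simp [h2] at hc

/-- elements of reduced Groebner bases of toric ideals. -/
lemma RG_of_reduced {m : MonomialOrder.{u, u} σ} {a : σ → Fin d → ℤ}
    {G : Set (MvPolynomial σ k)} (hG : IsReducedGroebner m (toricIdeal k a) G)
    {f : MvPolynomial σ k} (hf : f ∈ G) :
    ∃ u v, RG m a u v ∧ f = monomial u (1 : k) - monomial v (1 : k) := by
  classical
  obtain ⟨hsub, hgb, hmonic, hred⟩ := hG
  rw [groebner_iff hsub] at hgb
  have hfI : f ∈ toricIdeal k a := hsub hf
  have hlc := hmonic f hf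
  have h0 : f ≠ 0 := by
    rintro rfl
    rw [MonomialOrder.leadingCoeff_zero] at hlc
    exact zero_ne_one hlc
  -- a nonstandard vector is divisible by some leading exponent
  have hdiv : ∀ c : σ →₀ ℕ, ¬ Std m a c → ∃ g ∈ G, g ≠ 0 ∧ m.degree g ≤ c := by
    intro c hc
    obtain ⟨v, hv, hstd⟩ := exists_std m a c
    have hlt : m.toSyn v < m.toSyn c :=
      lt_of_le_of_ne (hstd c hv.symm) fun h => hc (m.toSyn.injective h ▸ hstd)
    have hmem : (monomial c (1 : k) - monomial v (1 : k)) ∈ toricIdeal k a := sub_mem a hv.symm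
    have hdeg := degree_binomial (k := k) hlt
    have hne : (monomial c (1 : k) - monomial v (1 : k)) ≠ 0 := by
      intro h
      rw [sub_eq_zero] at h
      have := (monomial_left_inj (one_ne_zero (α := k))).mp h
      rw [this] at hlt
      exact lt_irrefl _ hlt
    obtain ⟨g, hg, hg0, hle⟩ := hgb _ hmem hne
    rw [hdeg] at hle
    exact ⟨g, hg, hg0, hle⟩
  set u := m.degree f with hu
  have huns : ¬ Std m a u := not_std_degree m a hfI h0
  -- all the other exponents are standard
  have hoth : ∀ c ∈ f.support, c ≠ u → Std m a c := by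
    intro c hc hcu
    by_contra hns
    obtain ⟨g, hg, hg0, hle⟩ := hdiv c hns
    by_cases hgf : g = f
    · subst hgf
      apply hcu
      apply m.toSyn.injective
      exact le_antisymm (m.le_degree hc) (m.toSyn_monotone hle)
    · exact hred f hf g hg hgf c hc hle
  obtain ⟨v, hv, hstdv⟩ := exists_std m a u
  have huv : u ≠ v := ne_of_std hstdv huns
  refine ⟨u, v, ⟨hv.symm, hstdv, huns, ?_⟩, ?_⟩
  · intro w hw hne
    by_contra hns
    obtain ⟨g, hg, hg0, hle⟩ := hdiv w hns
    by_cases hgf : g = f
    · subst hgf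
      exact hne (le_antisymm hw hle)
    · exact hred f hf g hg hgf u (m.degree_mem_support h0) (hle.trans hw)
  · -- coefficients
    have hcu : coeff u f = 1 := hlc
    have hzero : ∀ c, c ≠ u → c ≠ v → coeff c f = 0 := by
      intro c hcu' hcv
      by_contra hne
      have hc : c ∈ f.support := mem_support_iff.mpr hne
      have hstdc := hoth c hc hcu'
      have hdc : deg a c ≠ deg a u := by
        intro h
        exact hcv (std_unique (h.trans hv.symm) hstdc hstdv)
      have h := fiber_sum a hfI (deg a c)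
      rw [Finset.sum_eq_single_of_mem c (by rw [Finset.mem_filter]; exact ⟨hc, rfl⟩)] at h
      · exact hne h
      · intro p hp hpc
        rw [Finset.mem_filter] at hp
        exfalso
        have hpu : p ≠ u := by
          rintro rfl
          exact hdc hp.2.symm
        exact hpc (std_unique hp.2 (hoth p hp.1 hpu) hstdc)
    have hcv : coeff v f = -1 := by
      have h := fiber_sum a hfI (deg a u)
      have hA : ∑ p ∈ {p ∈ f.support | deg a p = deg a u}, coeff p f =
          ∑ p ∈ {p ∈ f.support | deg a p = deg a u} ∪ ({u, v} : Finset (σ →₀ ℕ)), coeff p f := by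
        apply Finset.sum_subset Finset.subset_union_left
        intro p hp hp2
        rw [Finset.mem_filter, not_and_or] at hp2
        rcases hp2 with hp2 | hp2
        · exact notMem_support_iff.mp hp2
        · exfalso
          rcases Finset.mem_union.mp hp with hp3 | hp3
          · rw [Finset.mem_filter] at hp3
            exact hp2 hp3.2
          · simp only [Finset.mem_insert, Finset.mem_singleton] at hp3
            rcases hp3 with rfl | rfl
            · exact hp2 rfl
            · exact hp2 hv
      have hB : ∑ p ∈ ({u, v} : Finset (σ →₀ ℕ)), coeff p f =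
          ∑ p ∈ {p ∈ f.support | deg a p = deg a u} ∪ ({u, v} : Finset (σ →₀ ℕ)), coeff p f := by
        apply Finset.sum_subset Finset.subset_union_right
        intro p _ hp2
        simp only [Finset.mem_insert, Finset.mem_singleton, not_or] at hp2
        exact hzero p hp2.1 hp2.2
      have h2 := hA.trans hB.symm
      rw [h2, Finset.sum_pair huv, hcu] at h
      linear_combination h
    ext c
    rw [coeff_sub, coeff_monomial, coeff_monomial]
    by_cases h1 : u = c
    · subst h1
      rw [hcu, if_pos rfl, if_neg (Ne.symm huv), sub_zero]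
    · by_cases h2 : v = c
      · subst h2
        rw [hcv, if_neg h1, if_pos rfl, zero_sub]
      · rw [hzero c (Ne.symm h1) (Ne.symm h2), if_neg h1, if_neg h2, sub_zero]

/-- the explicit reduced Groebner basis of a toric ideal. -/
lemma reduced_RG (m : MonomialOrder.{u, u} σ) (a : σ → Fin d → ℤ) :
    IsReducedGroebner m (toricIdeal k a)
      {f | ∃ u v, RG m a u v ∧ f = monomial u (1 : k) - monomial v (1 : k)} := by
  classical
  have hlt : ∀ {u v}, RG m a u v → m.toSyn v < m.toSyn u := by
    intro u v h
    exact lt_of_le_of_ne (h.2.1 u h.1) fun h2 => ne_of_std h.2.1 h.2.2.1 (m.toSyn.injective h2).symm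
  have hsub : {f : MvPolynomial σ k | ∃ u v, RG m a u v ∧
      f = monomial u (1 : k) - monomial v (1 : k)} ⊆
      (toricIdeal k a : Set (MvPolynomial σ k)) := by
    rintro f ⟨u, v, h, rfl⟩
    exact sub_mem a h.1
  refine ⟨hsub, ?_, ?_, ?_⟩
  · rw [groebner_iff hsub]
    intro f hf h0
    have hns := not_std_degree m a hf h0
    obtain ⟨w, hle, hw, hmin⟩ := exists_minimal hns
    obtain ⟨v, hv, hstd⟩ := exists_std m a w
    have hRG : RG m a w v := ⟨hv.symm, hstd, hw, hmin⟩
    refine ⟨monomial w (1 : k) - monomial v (1 : k), ⟨w, v, hRG, rfl⟩, ?_, ?_⟩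
    · intro h
      have := leadingCoeff_binomial (k := k) (hlt hRG)
      rw [h, MonomialOrder.leadingCoeff_zero] at this
      exact zero_ne_one this
    · rw [degree_binomial (hlt hRG)]
      exact hle
  · rintro g ⟨u, v, h, rfl⟩
    exact leadingCoeff_binomial (hlt h)
  · rintro g ⟨u, v, h, rfl⟩ g' ⟨u', v', h', rfl⟩ hne c hc hle
    rw [degree_binomial (hlt h')] at hle
    rcases support_binomial hc with rfl | rfl
    · by_cases e : u' = c
      · subst e
        have : v' = v := std_unique (h'.1.symm.trans h.1) h'.2.1 h.2.1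
        subst this
        exact hne rfl
      · exact h'.2.2.1 (h.2.2.2 u' hle e)
    · exact h'.2.2.1 (std_of_le h.2.1 hle)

/-- description of the universal Groebner basis. -/
lemma mem_universalGroebner (a : σ → Fin d → ℤ) (f : MvPolynomial σ k) :
    f ∈ universalGroebner k a ↔ ∃ (m : MonomialOrder.{u, u} σ) (u v : σ →₀ ℕ),
      RG m a u v ∧ f = monomial u (1 : k) - monomial v (1 : k) := by
  constructor
  · rintro ⟨m, G, hG, hf⟩
    obtain ⟨u, v, h⟩ := RG_of_reduced hG hf
    exact ⟨m, u, v, h⟩
  · rintro ⟨m, u, v, h, rfl⟩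
    exact ⟨m, _, reduced_RG m a, u, v, h, rfl⟩

end Groebner

section Connected

variable {d : ℕ} {σ : Type u}

/-- two monomials of the same degree with a common variable. -/
def Adj (a : σ → Fin d → ℤ) (u v : σ →₀ ℕ) : Prop :=
  deg a u = deg a v ∧ ∃ i, u i ≠ 0 ∧ v i ≠ 0

/-- connectedness in the fibre. -/
def Conn (a : σ → Fin d → ℤ) (u v : σ →₀ ℕ) : Prop := Relation.ReflTransGen (Adj a) u v

lemma adj_symm {a : σ → Fin d → ℤ} {u v : σ →₀ ℕ} (h : Adj a u v) : Adj a v u := by
  obtain ⟨h1, i, h2, h3⟩ := h
  exact ⟨h1.symm, i, h3, h2⟩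

lemma conn_symm {a : σ → Fin d → ℤ} {u v : σ →₀ ℕ} (h : Conn a u v) : Conn a v u := by
  induction h with
  | refl => exact Relation.ReflTransGen.refl
  | tail _ h2 ih => exact Relation.ReflTransGen.head (adj_symm h2) ih

lemma conn_trans {a : σ → Fin d → ℤ} {u v w : σ →₀ ℕ} (h : Conn a u v) (h' : Conn a v w) :
    Conn a u w := Relation.ReflTransGen.trans h h'

lemma conn_deg {a : σ → Fin d → ℤ} {u v : σ →₀ ℕ} (h : Conn a u v) : deg a u = deg a v := by
  induction h with
  | refl => rfl
  | tail _ h2 ih => exact ih.trans h2.1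

/-- positive integral weights compatible with the degree. -/
def GoodWeight (a : σ → Fin d → ℤ) (W : σ → ℕ) : Prop :=
  (∀ i, 0 < W i) ∧ ∀ u v, deg a u = deg a v → Finsupp.weight W u = Finsupp.weight W v

lemma exists_goodWeight (a : σ → Fin d → ℤ)
    (hpos : ∃ w : Fin d → ℚ, ∀ i, 0 < ∑ j, w j * (a i j : ℚ)) :
    ∃ W : σ → ℕ, GoodWeight a W := by
  classical
  obtain ⟨w, hw⟩ := hpos
  set N : ℕ := ∏ j, (w j).den with hN
  have hNpos : 0 < N := Finset.prod_pos fun j _ => (w j).den_pos
  have hz : ∀ j, ∃ z : ℤ, (z : ℚ) = (N : ℚ) * w j := by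
    intro j
    obtain ⟨c, hc⟩ : (w j).den ∣ N := Finset.dvd_prod_of_mem _ (Finset.mem_univ j)
    refine ⟨c * (w j).num, ?_⟩
    have h1 : ((w j).den : ℚ) * w j = (w j).num := Rat.den_mul_eq_num (w j)
    rw [hc]
    push_cast
    rw [mul_right_comm, h1, mul_comm]
  choose z hz using hz
  let ℓ : (Fin d → ℤ) →+ ℤ :=
    { toFun := fun b => ∑ j, z j * b j
      map_zero' := by simp
      map_add' := fun x y => by simp [mul_add, Finset.sum_add_distrib] }
  have hℓ : ∀ i, 0 < ℓ (a i) := by
    intro i
    have h1 : ((ℓ (a i) : ℤ) : ℚ) = (N : ℚ) * ∑ j, w j * (a i j : ℚ) := by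
      change ((∑ j, z j * a i j : ℤ) : ℚ) = _
      push_cast
      rw [Finset.mul_sum]
      refine Finset.sum_congr rfl fun j _ => ?_
      rw [hz j]
      ring
    have h2 : (0 : ℚ) < ((ℓ (a i) : ℤ) : ℚ) := by
      rw [h1]
      exact mul_pos (by exact_mod_cast hNpos) (hw i)
    exact_mod_cast h2
  refine ⟨fun i => (ℓ (a i)).toNat, fun i => by
    have h1 := hℓ i
    exact Int.lt_toNat.mpr (by exact_mod_cast h1), ?_⟩
  have key : ∀ u : σ →₀ ℕ, ((Finsupp.weight (fun i => (ℓ (a i)).toNat) u : ℕ) : ℤ)
      = ℓ (deg a u) := by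
    intro u
    rw [Finsupp.weight_apply, deg_apply, Finsupp.sum, Finsupp.sum, map_sum]
    push_cast
    refine Finset.sum_congr rfl fun i _ => ?_
    rw [map_nsmul, smul_eq_mul, nsmul_eq_mul]
    push_cast
    rw [Int.toNat_of_nonneg (hℓ i).le]
  intro u v h
  have : ((Finsupp.weight (fun i => (ℓ (a i)).toNat) u : ℕ) : ℤ) =
      ((Finsupp.weight (fun i => (ℓ (a i)).toNat) v : ℕ) : ℤ) := by
    rw [key, key, h]
  exact_mod_cast this

lemma weight_pos {W : σ → ℕ} (hW : ∀ i, 0 < W i) {u : σ →₀ ℕ} (hu : u ≠ 0) :
    0 < Finsupp.weight W u := by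
  obtain ⟨i, hi⟩ := Finsupp.ne_iff.mp hu
  have h1 := Finsupp.le_weight W (hW i).ne' u
  have h2 : u i ≠ 0 := hi
  omega

end Connected

section Markov

variable {k : Type v} [Field k] {d : ℕ} {σ : Type u}

/-- exchange lemma -/
lemma exchange {V : Type*} [AddCommGroup V] [Module k V] [DecidableEq V] (J : Submodule k V)
    (x : V) (hx : x ∉ J) (Y : Finset V) (h : x ∈ Submodule.span k (Y : Set V) ⊔ J) :
    ∃ t ∈ Y, t ∈ Submodule.span k ((insert x (Y.erase t) : Finset V) : Set V) ⊔ J := by
  induction Y using Finset.induction_on with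
  | empty =>
    exfalso
    apply hx
    simpa using h
  | insert y Y0 hy ih =>
    by_cases h2 : x ∈ Submodule.span k (Y0 : Set V) ⊔ J
    · obtain ⟨t, ht, h3⟩ := ih h2
      refine ⟨t, Finset.mem_insert_of_mem ht, ?_⟩
      refine (sup_le_sup_right (Submodule.span_mono ?_) J) h3
      rw [Finset.coe_subset]
      exact Finset.insert_subset_insert _ (Finset.erase_subset_erase _ (Finset.subset_insert _ _))
    · refine ⟨y, Finset.mem_insert_self _ _, ?_⟩
      rw [Finset.erase_insert hy]
      rw [Finset.coe_insert, Submodule.span_insert, sup_assoc, Submodule.mem_sup] at h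
      obtain ⟨c', hc', z, hz, rfl⟩ := h
      obtain ⟨c, rfl⟩ := Submodule.mem_span_singleton.mp hc'
      have hc : c ≠ 0 := by
        rintro rfl
        apply h2
        rw [zero_smul, zero_add]
        exact hz
      have hy2 : y = c⁻¹ • ((c • y + z) - z) := by
        rw [add_sub_cancel_right, smul_smul, inv_mul_cancel₀ hc, one_smul]
      have hle : Submodule.span k (Y0 : Set V) ⊔ J ≤
          Submodule.span k ((insert (c • y + z) Y0 : Finset V) : Set V) ⊔ J := by
        refine sup_le_sup_right (Submodule.span_mono ?_) J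
        rw [Finset.coe_subset]
        exact Finset.subset_insert _ _
      have h4 : c⁻¹ • ((c • y + z) - z) ∈
          Submodule.span k ((insert (c • y + z) Y0 : Finset V) : Set V) ⊔ J := by
        apply Submodule.smul_mem
        apply Submodule.sub_mem
        · apply Submodule.mem_sup_left
          apply Submodule.subset_span
          exact Finset.mem_coe.mpr (Finset.mem_insert_self _ _)
        · exact hle hz
      rw [← hy2] at h4
      exact h4

/-- a homogeneous binomial of weight `N` in the set `T`. -/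
def PartEq (a : σ → Fin d → ℤ) (W : σ → ℕ) (T : Set (MvPolynomial σ k)) (N : ℕ) :
    Set (MvPolynomial σ k) :=
  {f ∈ T | ∃ u v, deg a u = deg a v ∧ Finsupp.weight W u = N ∧
    f = monomial u (1 : k) - monomial v (1 : k)}

/-- the homogeneous binomials of weight below `N` in the set `T`. -/
def PartLt (a : σ → Fin d → ℤ) (W : σ → ℕ) (T : Set (MvPolynomial σ k)) (N : ℕ) :
    Set (MvPolynomial σ k) :=
  {f ∈ T | ∃ u v, deg a u = deg a v ∧ Finsupp.weight W u < N ∧
    f = monomial u (1 : k) - monomial v (1 : k)}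

lemma monomial_mul_binomial (m u v : σ →₀ ℕ) :
    monomial m (1 : k) * (monomial u (1 : k) - monomial v (1 : k)) =
      monomial (m + u) (1 : k) - monomial (m + v) (1 : k) := by
  rw [mul_sub, monomial_mul, monomial_mul, one_mul]

/-- induction principle: a linear condition that holds for all monomial multiples of the
generators holds on the ideal. -/
lemma span_ind (T : Set (MvPolynomial σ k)) {V : Type*} [AddCommGroup V] [Module k V] (φ : MvPolynomial σ k →ₗ[k] V)
    (Y : Submodule k V)
    (h : ∀ t ∈ T, ∀ m : σ →₀ ℕ, φ (monomial m (1 : k) * t) ∈ Y) :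
    ∀ r ∈ Ideal.span T, φ r ∈ Y := by
  have key : ∀ r ∈ Ideal.span T, ∀ m : σ →₀ ℕ, φ (monomial m (1 : k) * r) ∈ Y := by
    intro r hr
    refine Submodule.span_induction (p := fun r _ => ∀ m : σ →₀ ℕ,
      φ (monomial m (1 : k) * r) ∈ Y) ?_ ?_ ?_ ?_ hr
    · exact fun t ht m => h t ht m
    · intro m
      rw [mul_zero, map_zero]
      exact Y.zero_mem
    · intro x y _ _ hx hy m
      rw [mul_add, map_add]
      exact Y.add_mem (hx m) (hy m)
    · intro b x _ hx m
      rw [smul_eq_mul]
      induction b using MvPolynomial.induction_on' with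
      | monomial s c =>
        have : monomial m (1 : k) * (monomial s c * x) = c • (monomial (m + s) (1 : k) * x) := by
          rw [← mul_assoc, monomial_mul, one_mul, ← smul_mul_assoc, smul_monomial, smul_eq_mul,
            mul_one]
        rw [this, map_smul]
        exact Y.smul_mem _ (hx _)
      | add p q hp hq =>
        rw [add_mul, mul_add, map_add]
        exact Y.add_mem hp hq
  intro r hr
  have := key r hr 0
  have h1 : monomial (0 : σ →₀ ℕ) (1 : k) = 1 := rfl
  rwa [h1, one_mul] at this

lemma homog_binomial {a : σ → Fin d → ℤ} {W : σ → ℕ} (hW : GoodWeight a W) {u v : σ →₀ ℕ}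
    (h : deg a u = deg a v) :
    IsWeightedHomogeneous W (monomial u (1 : k) - monomial v (1 : k))
      (Finsupp.weight W u) := by
  apply IsWeightedHomogeneous.sub
  · exact isWeightedHomogeneous_monomial W u 1 rfl
  · exact isWeightedHomogeneous_monomial W v 1 (hW.2 u v h).symm

lemma component_mem {a : σ → Fin d → ℤ} {W : σ → ℕ} (hW : GoodWeight a W)
    (T : Set (MvPolynomial σ k))
    (hT : ∀ t ∈ T, ∃ u v, deg a u = deg a v ∧ t = monomial u (1 : k) - monomial v (1 : k))
    (N : ℕ) (r : MvPolynomial σ k) (hr : r ∈ Ideal.span T) :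
    weightedHomogeneousComponent W N r ∈ Submodule.span k (PartEq a W T N) ⊔
      (Ideal.span (PartLt a W T N)).restrictScalars k := by
  classical
  refine span_ind T (weightedHomogeneousComponent W N) _ ?_ r hr
  intro t ht m
  obtain ⟨u, v, huv, rfl⟩ := hT t ht
  rw [monomial_mul_binomial]
  have hdeg : deg a (m + u) = deg a (m + v) := by rw [map_add, map_add, huv]
  have hhom := homog_binomial (k := k) hW hdeg
  by_cases hN : Finsupp.weight W (m + u) = N
  · rw [hN] at hhom
    rw [hhom.weightedHomogeneousComponent_same]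
    by_cases hm : m = 0
    · subst hm
      apply Submodule.mem_sup_left
      apply Submodule.subset_span
      rw [zero_add, zero_add]
      rw [zero_add] at hN
      exact ⟨ht, u, v, huv, hN, rfl⟩
    · apply Submodule.mem_sup_right
      rw [← monomial_mul_binomial]
      change _ ∈ Ideal.span (PartLt a W T N)
      apply Ideal.mul_mem_left
      apply Ideal.subset_span
      refine ⟨ht, u, v, huv, ?_, rfl⟩
      have := weight_pos hW.1 hm
      rw [map_add] at hN
      omega
  · rw [hhom.weightedHomogeneousComponent_ne _ (Ne.symm hN)]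
    exact Submodule.zero_mem _

lemma partEq_subset {a : σ → Fin d → ℤ} {W : σ → ℕ} {T : Set (MvPolynomial σ k)} {N : ℕ} :
    PartEq a W T N ⊆ T := fun _ h => h.1

lemma homog_mem {a : σ → Fin d → ℤ} {W : σ → ℕ} (hW : GoodWeight a W)
    (T : Set (MvPolynomial σ k))
    (hT : ∀ t ∈ T, ∃ u v, deg a u = deg a v ∧ t = monomial u (1 : k) - monomial v (1 : k))
    (hgen : Ideal.span T = toricIdeal k a) {u v : σ →₀ ℕ} (h : deg a u = deg a v) :
    (monomial u (1 : k) - monomial v (1 : k)) ∈
      Submodule.span k (PartEq a W T (Finsupp.weight W u)) ⊔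
      (Ideal.span (PartLt a W T (Finsupp.weight W u))).restrictScalars k := by
  have h1 := component_mem hW T hT (Finsupp.weight W u)
    (monomial u (1 : k) - monomial v (1 : k)) (by rw [hgen]; exact sub_mem a h)
  rwa [(homog_binomial (k := k) hW h).weightedHomogeneousComponent_same] at h1

/-- monomials which are connected in the fibre: the binomial is generated in lower degree. -/
lemma mem_lower_of_conn {a : σ → Fin d → ℤ} {W : σ → ℕ} (hW : GoodWeight a W)
    (T : Set (MvPolynomial σ k))
    (hT : ∀ t ∈ T, ∃ u v, deg a u = deg a v ∧ t = monomial u (1 : k) - monomial v (1 : k))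
    (hgen : Ideal.span T = toricIdeal k a) {u v : σ →₀ ℕ} (h : Conn a u v) :
    (monomial u (1 : k) - monomial v (1 : k)) ∈
      Ideal.span (PartLt a W T (Finsupp.weight W u)) := by
  classical
  induction h with
  | refl =>
    rw [sub_self]
    exact Ideal.zero_mem _
  | @tail b c h1 h2 ih =>
    have hub : deg a u = deg a b := conn_deg h1
    have hwt : Finsupp.weight W u = Finsupp.weight W b := hW.2 u b hub
    obtain ⟨hbc, i, hb, hc⟩ := h2
    have hsplit : (monomial u (1 : k) - monomial c (1 : k)) =
        (monomial u (1 : k) - monomial b (1 : k)) + (monomial b (1 : k) - monomial c (1 : k)) := by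
      ring
    rw [hsplit]
    refine Ideal.add_mem _ ih ?_
    have eb : b = Finsupp.single i 1 + (b - Finsupp.single i 1) := by
      rw [add_comm]
      exact (Finsupp.sub_add_single_one_cancel hb).symm
    have ec : c = Finsupp.single i 1 + (c - Finsupp.single i 1) := by
      rw [add_comm]
      exact (Finsupp.sub_add_single_one_cancel hc).symm
    have hdeg : deg a (b - Finsupp.single i 1) = deg a (c - Finsupp.single i 1) := by
      have h3 := hbc
      rw [eb, ec, map_add, map_add] at h3
      exact add_left_cancel h3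
    have hfac : (monomial b (1 : k) - monomial c (1 : k)) =
        monomial (Finsupp.single i 1) (1 : k) *
          (monomial (b - Finsupp.single i 1) (1 : k) -
            monomial (c - Finsupp.single i 1) (1 : k)) := by
      rw [monomial_mul_binomial, ← eb, ← ec]
    rw [hfac]
    apply Ideal.mul_mem_left
    have hlt : Finsupp.weight W (b - Finsupp.single i 1) < Finsupp.weight W u := by
      rw [hwt]
      have := Finsupp.weight_sub_single_add (w := W) hb
      have h4 := hW.1 i
      omega
    have hm := homog_mem hW T hT hgen hdeg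
    have hle : Submodule.span k (PartEq a W T (Finsupp.weight W (b - Finsupp.single i 1))) ⊔
        (Ideal.span (PartLt a W T (Finsupp.weight W (b - Finsupp.single i 1)))).restrictScalars k
        ≤ (Ideal.span (PartLt a W T (Finsupp.weight W u))).restrictScalars k := by
      apply sup_le
      · rw [Submodule.span_le]
        rintro f ⟨hf, p, q, hpq, hN, rfl⟩
        exact Ideal.subset_span ⟨hf, p, q, hpq, hN ▸ hlt, rfl⟩
      · intro x hx
        refine Ideal.span_mono ?_ hx
        rintro f ⟨hf, p, q, hpq, hN, rfl⟩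
        exact ⟨hf, p, q, hpq, hN.trans hlt, rfl⟩
    exact hle hm

/-- monomials which are not connected: the binomial is not generated in lower degree. -/
lemma not_mem_lower {a : σ → Fin d → ℤ} {W : σ → ℕ} (hW : GoodWeight a W)
    (T : Set (MvPolynomial σ k)) {u v : σ →₀ ℕ} (h : ¬ Conn a u v) :
    (monomial u (1 : k) - monomial v (1 : k)) ∉
      Ideal.span (PartLt a W T (Finsupp.weight W u)) := by
  classical
  intro hmem
  let φ : MvPolynomial σ k →ₗ[k] k :=
    (basisMonomials σ k).constr k (fun p => if Conn a u p then (1 : k) else 0)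
  have hφ : ∀ p : σ →₀ ℕ, φ (monomial p (1 : k)) = if Conn a u p then (1 : k) else 0 := by
    intro p
    have h1 : (basisMonomials σ k) p = monomial p (1 : k) := by rw [coe_basisMonomials]
    rw [← h1]
    exact Module.Basis.constr_basis _ _ _ _
  have h0 : φ (monomial u (1 : k) - monomial v (1 : k)) ∈ (⊥ : Submodule k k) := by
    refine span_ind _ φ ⊥ ?_ _ hmem
    rintro t ⟨_, p, q, hpq, hlt, rfl⟩ m
    rw [monomial_mul_binomial, map_sub, hφ, hφ, Submodule.mem_bot, sub_eq_zero]
    have hdeg : deg a (m + p) = deg a (m + q) := by rw [map_add, map_add, hpq]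
    have haux : ∀ p' q' : σ →₀ ℕ, deg a (m + p') = deg a (m + q') →
        Finsupp.weight W p' < Finsupp.weight W u → Conn a u (m + p') → Conn a u (m + q') := by
      intro p' q' h1 h2 h3
      have hm : m ≠ 0 := by
        rintro rfl
        have := hW.2 _ _ (conn_deg h3)
        rw [zero_add] at this
        omega
      obtain ⟨i, hi⟩ := Finsupp.ne_iff.mp hm
      have hi' : m i ≠ 0 := hi
      refine Relation.ReflTransGen.tail h3 ⟨h1, i, ?_, ?_⟩
      · rw [Finsupp.add_apply]
        omega
      · rw [Finsupp.add_apply]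
        omega
    have hiff : Conn a u (m + p) ↔ Conn a u (m + q) :=
      ⟨haux p q hdeg hlt, haux q p hdeg.symm (by rw [← hW.2 p q hpq]; exact hlt)⟩
    simp only [hiff]
  have hrefl : Conn a u u := Relation.ReflTransGen.refl
  rw [map_sub, hφ, hφ, if_pos hrefl, if_neg h, sub_zero,
    Submodule.mem_bot] at h0
  exact one_ne_zero h0

/-- description of the universal Markov basis. -/
lemma mem_universalMarkov [Finite σ] {a : σ → Fin d → ℤ} {W : σ → ℕ} (hW : GoodWeight a W)
    (f : MvPolynomial σ k) :
    f ∈ universalMarkov k a ↔ ∃ u v, deg a u = deg a v ∧ ¬ Conn a u v ∧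
      f = monomial u (1 : k) - monomial v (1 : k) := by
  classical
  constructor
  · rintro ⟨S, hbin, ⟨hgen, hmin⟩, hf⟩
    have hS : ∀ t ∈ S, ∃ u v, deg a u = deg a v ∧
        t = monomial u (1 : k) - monomial v (1 : k) := by
      intro t ht
      obtain ⟨u, v, rfl⟩ := hbin t ht
      refine ⟨u, v, deg_eq_of_mem (k := k) a ?_, rfl⟩
      rw [← hgen]
      exact Ideal.subset_span ht
    obtain ⟨u, v, huv, hfuv⟩ := hS f hf
    refine ⟨u, v, huv, ?_, hfuv⟩
    intro hconn
    have hssub : S \ {f} ⊂ S := by
      refine ⟨Set.sdiff_subset, fun h => ?_⟩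
      exact (h hf).2 rfl
    have hfmem : f ∈ Ideal.span (S \ {f}) := by
      by_cases hne : u = v
      · rw [hfuv, hne, sub_self]
        exact Ideal.zero_mem _
      · have h1 := mem_lower_of_conn hW S hS hgen hconn
        rw [← hfuv] at h1
        refine Ideal.span_mono ?_ h1
        rintro t ⟨ht, p, q, hpq, hlt, hteq⟩
        refine ⟨ht, ?_⟩
        rintro rfl
        have h2 := binomial_eq (k := k) hne (hfuv.symm.trans hteq)
        rcases h2 with ⟨rfl, rfl⟩ | ⟨rfl, rfl⟩
        · exact lt_irrefl _ hlt
        · rw [hW.2 _ _ hpq] at hlt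
          exact lt_irrefl _ hlt
    apply hmin _ hssub
    apply le_antisymm
    · rw [← hgen]
      exact Ideal.span_mono Set.sdiff_subset
    · rw [← hgen, Ideal.span_le]
      intro t ht
      by_cases htf : t = f
      · rw [htf]
        exact hfmem
      · exact Ideal.subset_span ⟨ht, htf⟩
  · rintro ⟨u, v, huv, hconn, rfl⟩
    set f : MvPolynomial σ k := monomial u (1 : k) - monomial v (1 : k) with hf
    -- finite generating sets of binomials
    let P : ℕ → Prop := fun n => ∃ T : Finset (MvPolynomial σ k), T.card = n ∧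
      (∀ t ∈ T, ∃ u v, deg a u = deg a v ∧ t = monomial u (1 : k) - monomial v (1 : k)) ∧
      Ideal.span (T : Set (MvPolynomial σ k)) = toricIdeal k a
    have hP : ∃ n, P n := by
      have hfg : (Ideal.span {f : MvPolynomial σ k | ∃ u v : σ →₀ ℕ, deg a u = deg a v ∧
          f = monomial u (1 : k) - monomial v (1 : k)}).FG := IsNoetherian.noetherian _
      obtain ⟨T, hT1, hT2⟩ := (Submodule.fg_span_iff_fg_span_finset_subset _).mp hfg
      refine ⟨T.card, T, rfl, fun t ht => hT1 ht, ?_⟩
      change Submodule.span _ _ = _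
      rw [← hT2]
      exact span_binomials a
    obtain ⟨T, hTc, hTb, hTgen⟩ := Nat.find_spec hP
    have hminimal : ∀ T' : Finset (MvPolynomial σ k),
        (∀ t ∈ T', ∃ u v, deg a u = deg a v ∧ t = monomial u (1 : k) - monomial v (1 : k)) →
        Ideal.span (T' : Set (MvPolynomial σ k)) = toricIdeal k a → T.card ≤ T'.card := by
      intro T' h1 h2
      rw [hTc]
      exact Nat.find_min' hP ⟨T', rfl, h1, h2⟩
    -- a generating set of minimal cardinality that contains `f`
    obtain ⟨T', hT'c, hT'b, hT'gen, hT'f⟩ : ∃ T' : Finset (MvPolynomial σ k),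
        T'.card ≤ T.card ∧
        (∀ t ∈ T', ∃ u v, deg a u = deg a v ∧ t = monomial u (1 : k) - monomial v (1 : k)) ∧
        Ideal.span (T' : Set (MvPolynomial σ k)) = toricIdeal k a ∧ f ∈ T' := by
      have h1 := homog_mem hW (T : Set (MvPolynomial σ k)) hTb hTgen huv
      have h2 := not_mem_lower hW (T : Set (MvPolynomial σ k)) (k := k) hconn
      set N := Finsupp.weight W u with hN
      have h3 : (PartEq a W (T : Set (MvPolynomial σ k)) N) =
          ((T.filter fun t => t ∈ PartEq a W (T : Set (MvPolynomial σ k)) N :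
            Finset (MvPolynomial σ k)) : Set (MvPolynomial σ k)) := by
        ext t
        rw [Finset.mem_coe, Finset.mem_filter]
        exact ⟨fun h => ⟨h.1, h⟩, fun h => h.2⟩
      rw [h3] at h1
      obtain ⟨t, htY, ht⟩ := exchange (k := k) _ f h2 _ h1
      rw [Finset.mem_filter] at htY
      refine ⟨insert f (T.erase t), ?_, ?_, ?_, Finset.mem_insert_self _ _⟩
      · have h4 := Finset.card_erase_of_mem htY.1
        have h5 := Finset.card_insert_le f (T.erase t)
        have h6 := Finset.card_pos.mpr ⟨t, htY.1⟩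
        omega
      · intro s hs
        rcases Finset.mem_insert.mp hs with rfl | hs
        · exact ⟨u, v, huv, rfl⟩
        · exact hTb s (Finset.mem_of_mem_erase hs)
      · have hfI : f ∈ toricIdeal k a := sub_mem a huv
        apply le_antisymm
        · rw [Ideal.span_le]
          intro s hs
          rcases Finset.mem_insert.mp (Finset.mem_coe.mp hs) with rfl | hs
          · exact hfI
          · rw [← hTgen]
            exact Ideal.subset_span (Finset.mem_of_mem_erase hs)
        · have htmem : t ∈ Ideal.span ((insert f (T.erase t) : Finset (MvPolynomial σ k)) :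
              Set (MvPolynomial σ k)) := by
            have hle : Submodule.span k ((insert f ((T.filter fun t => t ∈ PartEq a W
                (T : Set (MvPolynomial σ k)) N).erase t) : Finset (MvPolynomial σ k)) :
                  Set (MvPolynomial σ k)) ⊔
                (Ideal.span (PartLt a W (T : Set (MvPolynomial σ k)) N)).restrictScalars k ≤
                (Ideal.span ((insert f (T.erase t) : Finset (MvPolynomial σ k)) :
                  Set (MvPolynomial σ k))).restrictScalars k := by
              apply sup_le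
              · rw [Submodule.span_le]
                intro s hs
                rcases Finset.mem_insert.mp (Finset.mem_coe.mp hs) with rfl | hs
                · exact Ideal.subset_span (Finset.mem_coe.mpr (Finset.mem_insert_self _ _))
                · rw [Finset.mem_erase, Finset.mem_filter] at hs
                  exact Ideal.subset_span (Finset.mem_coe.mpr (Finset.mem_insert_of_mem
                    (Finset.mem_erase.mpr ⟨hs.1, hs.2.1⟩)))
              · intro x hx
                refine Ideal.span_mono ?_ hx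
                rintro s ⟨hs, p, q, hpq, hlt, rfl⟩
                refine Finset.mem_coe.mpr (Finset.mem_insert_of_mem
                    (Finset.mem_erase.mpr ⟨?_, hs⟩))
                rintro rfl
                obtain ⟨_, p', q', hpq', hN', heq⟩ := htY.2
                by_cases hne : p = q
                · subst hne
                  rw [sub_self] at heq ht
                  -- then t = 0, and f would be in the lower part
                  by_cases hne' : p' = q'
                  · -- `t = 0` is superfluous: contradiction with the minimality of `T`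
                    have h7 := hminimal (T.erase 0) (fun s hs =>
                      hTb s (Finset.mem_of_mem_erase hs)) (by
                        rw [← hTgen]
                        apply le_antisymm
                        · exact Ideal.span_mono (Finset.coe_subset.mpr
                            (Finset.erase_subset _ _))
                        · rw [Ideal.span_le]
                          intro s hs
                          by_cases h0 : s = 0
                          · rw [h0]
                            exact Ideal.zero_mem _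
                          · exact Ideal.subset_span (Finset.mem_coe.mpr
                              (Finset.mem_erase.mpr ⟨h0, Finset.mem_coe.mp hs⟩)))
                    have h8 : (0 : MvPolynomial σ k) ∈ T := by
                      have := htY.1
                      rwa [sub_self] at this
                    have h9 := Finset.card_erase_of_mem h8
                    have h10 := Finset.card_pos.mpr ⟨_, h8⟩
                    omega
                  · apply hne'
                    have := sub_eq_zero.mp heq.symm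
                    exact (monomial_left_inj (one_ne_zero (α := k))).mp this
                · rcases binomial_eq (k := k) hne heq with ⟨rfl, rfl⟩ | ⟨rfl, rfl⟩
                  · omega
                  · have := hW.2 _ _ hpq
                    omega
            exact hle ht
          rw [← hTgen, Ideal.span_le]
          intro s hs
          by_cases hst : s = t
          · rw [hst]
            exact htmem
          · exact Ideal.subset_span (Finset.mem_coe.mpr (Finset.mem_insert_of_mem
              (Finset.mem_erase.mpr ⟨hst, hs⟩)))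
    refine ⟨(T' : Set (MvPolynomial σ k)), ?_, ⟨hT'gen, ?_⟩, hT'f⟩
    · intro g hg
      obtain ⟨p, q, _, h⟩ := hT'b g hg
      exact ⟨p, q, h⟩
    · intro R hR hRgen
      have hRfin : R.Finite := T'.finite_toSet.subset hR.1
      have h1 := hminimal hRfin.toFinset (fun t ht => hT'b t (by
        rw [Set.Finite.mem_toFinset] at ht
        exact hR.1 ht)) (by rw [Set.Finite.coe_toFinset]; exact hRgen)
      have h2 : hRfin.toFinset ⊂ T' := by
        rw [← Finset.coe_ssubset, Set.Finite.coe_toFinset]
        exact hR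
      have h3 := Finset.card_lt_card h2
      omega

end Markov

section Main

variable {k : Type v} [Field k] {d : ℕ} {σ : Type u}

lemma weight_mono (W : σ → ℕ) : Monotone (Finsupp.weight W : (σ →₀ ℕ) →+ ℕ) := by
  intro x y h
  obtain ⟨c, rfl⟩ := le_iff_exists_add.mp h
  rw [map_add]
  exact Nat.le_add_right _ _

/-- the part of the weight carried by the variables in `X`. -/
noncomputable def pw (W : σ → ℕ) (X : Set σ) [DecidablePred (· ∈ X)] : (σ →₀ ℕ) →+ ℕ :=
  Finsupp.weight (fun i => if i ∈ X then W i else 0)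

lemma pw_mono (W : σ → ℕ) (X : Set σ) [DecidablePred (· ∈ X)] : Monotone (pw W X) :=
  weight_mono _

lemma pw_eq_zero {W : σ → ℕ} (hW : ∀ i, 0 < W i) {X : Set σ} [DecidablePred (· ∈ X)]
    {u : σ →₀ ℕ} : pw W X u = 0 ↔ ∀ i, u i ≠ 0 → i ∉ X := by
  constructor
  · intro h i hi hX
    have h1 : (if i ∈ X then W i else 0) ≠ 0 := by
      rw [if_pos hX]
      exact (hW i).ne'
    have h2 := Finsupp.le_weight (fun i => if i ∈ X then W i else 0) h1 u
    have h3 : Finsupp.weight (fun i => if i ∈ X then W i else 0) u = 0 := h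
    omega
  · intro h
    change Finsupp.weight (fun i => if i ∈ X then W i else 0) u = 0
    rw [Finsupp.weight_apply, Finsupp.sum]
    apply Finset.sum_eq_zero
    intro i hi
    rw [if_neg (h i (Finsupp.mem_support_iff.mp hi)), smul_zero]

lemma pw_eq_weight {W : σ → ℕ} {X : Set σ} [DecidablePred (· ∈ X)]
    {u : σ →₀ ℕ} (h : ∀ i, u i ≠ 0 → i ∈ X) : pw W X u = Finsupp.weight W u := by
  change Finsupp.weight (fun i => if i ∈ X then W i else 0) u = _
  rw [Finsupp.weight_apply, Finsupp.weight_apply, Finsupp.sum, Finsupp.sum]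
  refine Finset.sum_congr rfl fun i hi => ?_
  rw [if_pos (h i (Finsupp.mem_support_iff.mp hi))]

/-- two components of a fibre are joined by an element of the universal Groebner basis. -/
lemma exists_edge [Finite σ] {a : σ → Fin d → ℤ} {W : σ → ℕ} (hW : GoodWeight a W)
    {u v : σ →₀ ℕ} (huv : deg a u = deg a v) (hconn : ¬ Conn a u v) :
    ∃ (m : MonomialOrder.{u, u} σ) (c e : σ →₀ ℕ), Conn a u c ∧ Conn a v e ∧ RG m a c e := by
  classical
  obtain ⟨m0⟩ := exists_order σ
  -- the minimal elements of the two components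
  obtain ⟨c, hc, hcmin⟩ := WellFounded.has_min
    (InvImage.wf m0.toSyn (wellFounded_lt (α := m0.syn))) {c | Conn a u c}
    ⟨u, Relation.ReflTransGen.refl⟩
  obtain ⟨e, he, hemin⟩ := WellFounded.has_min
    (InvImage.wf m0.toSyn (wellFounded_lt (α := m0.syn))) {c | Conn a v c}
    ⟨v, Relation.ReflTransGen.refl⟩
  have hc : Conn a u c := hc
  have he : Conn a v e := he
  -- the variables of the components
  let SC : Set σ := {i | ∃ p, Conn a u p ∧ p i ≠ 0}
  let SD : Set σ := {i | ∃ p, Conn a v p ∧ p i ≠ 0}
  obtain ⟨m1, hm1⟩ := exists_refine (pw W SC) (pw_mono W SC) m0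
  obtain ⟨m, hm⟩ := exists_refine (pw W (SC ∪ SD)ᶜ) (pw_mono W _) m1
  have hdegu : ∀ p, Conn a u p → deg a p = deg a u := fun p hp => (conn_deg hp).symm
  have hdegv : ∀ p, Conn a v p → deg a p = deg a u := fun p hp => (conn_deg hp).symm.trans huv.symm
  -- membership in the components
  have hinC : ∀ p, deg a p = deg a u → (∃ i, p i ≠ 0 ∧ i ∈ SC) → Conn a u p := by
    rintro p hp ⟨i, hi, q, hq, hqi⟩
    exact Relation.ReflTransGen.tail hq ⟨(hdegu q hq).trans hp.symm, i, hqi, hi⟩
  have hinD : ∀ p, deg a p = deg a u → (∃ i, p i ≠ 0 ∧ i ∈ SD) → Conn a v p := by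
    rintro p hp ⟨i, hi, q, hq, hqi⟩
    exact Relation.ReflTransGen.tail hq ⟨(hdegv q hq).trans hp.symm, i, hqi, hi⟩
  have hdisj : ∀ p, Conn a u p → Conn a v p → False := fun p h1 h2 =>
    hconn (conn_trans h1 (conn_symm h2))
  -- values of the weights
  have hout0 : ∀ p, (Conn a u p ∨ Conn a v p) → pw W (SC ∪ SD)ᶜ p = 0 := by
    intro p hp
    rw [pw_eq_zero hW.1]
    intro i hi h
    apply h
    rcases hp with hp | hp
    · exact Or.inl ⟨p, hp, hi⟩
    · exact Or.inr ⟨p, hp, hi⟩
  have hC : ∀ p, Conn a u p → pw W SC p = Finsupp.weight W u := by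
    intro p hp
    rw [pw_eq_weight (X := SC) (u := p) fun i hi => (⟨p, hp, hi⟩ : i ∈ SC)]
    exact hW.2 _ _ (hdegu p hp)
  have hD : ∀ p, Conn a v p → pw W SC p = 0 := by
    intro p hp
    rw [pw_eq_zero hW.1]
    intro i hi h
    exact hdisj p (hinC p (hdegv p hp) ⟨i, hi, h⟩) hp
  have hupos : 0 < Finsupp.weight W u := by
    rcases Nat.eq_zero_or_pos (Finsupp.weight W u) with h0 | h0
    · exfalso
      have hu0 : u = 0 := by
        by_contra hne
        have := weight_pos hW.1 hne
        omega
      have hv0 : v = 0 := by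
        by_contra hne
        have := weight_pos hW.1 hne
        have h2 := hW.2 u v huv
        omega
      apply hconn
      rw [hu0, hv0]
      exact Relation.ReflTransGen.refl
    · exact h0
  have hne0 : ∀ p, deg a p = deg a u → ∃ i, p i ≠ 0 := by
    intro p hp
    have hp0 : p ≠ 0 := by
      rintro rfl
      have := hW.2 _ _ hp
      rw [map_zero] at this
      omega
    obtain ⟨i, hi⟩ := Finsupp.ne_iff.mp hp0
    exact ⟨i, hi⟩
  have hcase : ∀ p, deg a p = deg a u → pw W (SC ∪ SD)ᶜ p = 0 → Conn a u p ∨ Conn a v p := by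
    intro p hp h0
    obtain ⟨i, hi⟩ := hne0 p hp
    have h1 := (pw_eq_zero hW.1).mp h0 i hi
    rw [Set.mem_compl_iff, not_not] at h1
    rcases h1 with h1 | h1
    · exact Or.inl (hinC p hp ⟨i, hi, h1⟩)
    · exact Or.inr (hinD p hp ⟨i, hi, h1⟩)
  have hce : deg a c = deg a e := (hdegu c hc).trans (hdegv e he).symm
  refine ⟨m, c, e, hc, he, hce, ?_, ?_, ?_⟩
  · -- `e` is standard
    intro w hw
    have hw' : deg a w = deg a u := hw.trans (hdegv e he)
    rw [hm]
    rcases Nat.eq_zero_or_pos (pw W (SC ∪ SD)ᶜ w) with h0 | h0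
    · right
      refine ⟨(hout0 e (Or.inr he)).trans h0.symm, ?_⟩
      rw [hm1]
      rcases hcase w hw' h0 with h1 | h1
      · left
        rw [hD e he, hC w h1]
        exact hupos
      · right
        refine ⟨(hD e he).trans (hD w h1).symm, ?_⟩
        by_contra hlt
        exact hemin w h1 (not_le.mp hlt)
    · left
      rw [hout0 e (Or.inr he)]
      exact h0
  · -- `c` is not standard
    intro hstd
    have h1 := hstd e hce.symm
    rw [hm] at h1
    rcases h1 with h1 | ⟨_, h1⟩
    · rw [hout0 c (Or.inl hc), hout0 e (Or.inr he)] at h1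
      exact lt_irrefl _ h1
    · rw [hm1, hC c hc, hD e he] at h1
      rcases h1 with h1 | ⟨h1, _⟩
      · exact Nat.not_lt_zero _ h1
      · omega
  · -- `c` is minimal nonstandard
    intro w hw hne w' hw'
    by_contra hlt
    rw [not_le] at hlt
    obtain ⟨g, hg⟩ := le_iff_exists_add.mp hw
    have hg0 : g ≠ 0 := by
      rintro rfl
      rw [add_zero] at hg
      exact hne hg.symm
    obtain ⟨i, hi⟩ := Finsupp.ne_iff.mp hg0
    have hi' : g i ≠ 0 := hi
    have hx : deg a (w' + g) = deg a u := by
      rw [map_add, hw', ← map_add, ← hg]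
      exact hdegu c hc
    have hltx : m.toSyn (w' + g) < m.toSyn c := by
      rw [hg, map_add, map_add]
      exact add_lt_add_left hlt _
    have hcx : Conn a u (w' + g) := by
      refine Relation.ReflTransGen.tail hc ⟨(hdegu c hc).trans hx.symm, i, ?_, ?_⟩
      · rw [hg, Finsupp.add_apply]
        omega
      · rw [Finsupp.add_apply]
        omega
    have hnle : ¬ m.toSyn c ≤ m.toSyn (w' + g) := not_le.mpr hltx
    rw [hm, not_or, not_and] at hnle
    have h2 := hnle.2 ((hout0 c (Or.inl hc)).trans (hout0 _ (Or.inl hcx)).symm)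
    rw [hm1, not_or, not_and] at h2
    have h3 := h2.2 ((hC c hc).trans (hC _ hcx).symm)
    exact hcmin _ hcx (not_le.mp h3)

/-! ### restriction to a subset of the variables -/

variable (s : Set σ)

/-- extension of exponent vectors by zero. -/
noncomputable def ext0 : (s →₀ ℕ) →+ (σ →₀ ℕ) :=
  Finsupp.mapDomain.addMonoidHom (Subtype.val : s → σ)

lemma ext0_apply (u : s →₀ ℕ) : ext0 s u = u.mapDomain Subtype.val := rfl

lemma ext0_injective : Function.Injective (ext0 s) :=
  Finsupp.mapDomain_injective Subtype.val_injective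

lemma ext0_coe (u : s →₀ ℕ) (i : s) : ext0 s u i = u i :=
  Finsupp.mapDomain_apply Subtype.val_injective _ _

lemma ext0_notMem (u : s →₀ ℕ) {i : σ} (hi : i ∉ s) : ext0 s u i = 0 := by
  refine Finsupp.mapDomain_of_notMem_range _ _ ?_
  rintro ⟨j, rfl⟩
  exact hi j.2

lemma ext0_mono {u v : s →₀ ℕ} (h : u ≤ v) : ext0 s u ≤ ext0 s v := by
  obtain ⟨c, rfl⟩ := le_iff_exists_add.mp h
  rw [map_add]
  exact le_self_add

lemma deg_ext0 (a : σ → Fin d → ℤ) (u : s →₀ ℕ) :
    deg a (ext0 s u) = deg (fun i : s => a i) u := by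
  rw [ext0_apply, deg_apply, deg_apply, Finsupp.sum_mapDomain_index]
  · intro _
    exact zero_smul _ _
  · intro _ _ _
    exact add_smul _ _ _

lemma rename_monomial_ext0 (u : s →₀ ℕ) :
    rename (Subtype.val : s → σ) (monomial u (1 : k)) = monomial (ext0 s u) (1 : k) := by
  rw [rename_monomial]
  rfl

/-- vectors below an extended vector are extended vectors. -/
lemma exists_ext0_of_le {u : s →₀ ℕ} {w : σ →₀ ℕ} (h : w ≤ ext0 s u) :
    ∃ w' : s →₀ ℕ, w = ext0 s w' ∧ w' ≤ u := by
  classical
  refine ⟨w.comapDomain Subtype.val Subtype.val_injective.injOn, ?_, ?_⟩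
  · ext i
    by_cases hi : i ∈ s
    · have := ext0_coe s (w.comapDomain Subtype.val Subtype.val_injective.injOn) ⟨i, hi⟩
      rw [this]
      rfl
    · rw [ext0_notMem s _ hi]
      have h1 := h i
      rw [ext0_notMem s _ hi] at h1
      omega
  · intro i
    have h1 := h i
    rw [ext0_coe] at h1
    exact h1

lemma conn_ext0 {a : σ → Fin d → ℤ} {u v : s →₀ ℕ} (h : Conn (fun i : s => a i) u v) :
    Conn a (ext0 s u) (ext0 s v) := by
  induction h with
  | refl => exact Relation.ReflTransGen.refl
  | @tail b c _ h2 ih =>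
    obtain ⟨h3, i, hb, hc⟩ := h2
    refine Relation.ReflTransGen.tail ih ⟨?_, i, ?_, ?_⟩
    · rw [deg_ext0, deg_ext0, h3]
    · rw [ext0_coe]
      exact hb
    · rw [ext0_coe]
      exact hc

/-- restriction of a monomial order. -/
lemma exists_restrict (m : MonomialOrder.{u, u} σ) :
    ∃ m' : MonomialOrder.{u, u} s, ∀ x y : s →₀ ℕ,
      m'.toSyn x ≤ m'.toSyn y ↔ m.toSyn (ext0 s x) ≤ m.toSyn (ext0 s y) := by
  let φ : (s →₀ ℕ) →+ m.syn := (m.toSyn : (σ →₀ ℕ) →+ m.syn).comp (ext0 s)
  have hinj : Function.Injective φ := fun x y h => ext0_injective s (m.toSyn.injective h)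
  have hmono : Monotone φ := fun x y h => m.toSyn_monotone (ext0_mono s h)
  exact ⟨ofInj φ hinj hmono, fun x y => ofInj_le φ hinj hmono x y⟩

/-- restriction of exponent vectors. -/
noncomputable def res : (σ →₀ ℕ) →+ (s →₀ ℕ) :=
  Finsupp.comapDomain.addMonoidHom (f := (Subtype.val : s → σ)) Subtype.val_injective

lemma res_ext0 (u : s →₀ ℕ) : res s (ext0 s u) = u := by
  ext i
  exact ext0_coe s u i

lemma res_mono : Monotone (res s) := fun _ _ h i => h i

/-- extension of a monomial order to an elimination order. -/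
lemma exists_extend [Finite σ] {a : σ → Fin d → ℤ} {W : σ → ℕ} (hW : GoodWeight a W)
    (m' : MonomialOrder.{u, u} s) :
    ∃ m : MonomialOrder.{u, u} σ, (∀ x y : s →₀ ℕ,
      m.toSyn (ext0 s x) ≤ m.toSyn (ext0 s y) ↔ m'.toSyn x ≤ m'.toSyn y) ∧
      ∀ (x : s →₀ ℕ) (w : σ →₀ ℕ), m.toSyn w ≤ m.toSyn (ext0 s x) → ∃ w', w = ext0 s w' := by
  classical
  obtain ⟨m0⟩ := exists_order σ
  obtain ⟨m1, hm1⟩ := exists_refine ((m'.toSyn : (s →₀ ℕ) →+ m'.syn).comp (res s))
    (fun x y h => m'.toSyn_monotone (res_mono s h)) m0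
  obtain ⟨m, hm⟩ := exists_refine (pw W sᶜ) (pw_mono W _) m1
  have h0 : ∀ x : s →₀ ℕ, pw W sᶜ (ext0 s x) = 0 := by
    intro x
    rw [pw_eq_zero hW.1]
    intro i hi h
    exact hi (ext0_notMem s x h)
  refine ⟨m, ?_, ?_⟩
  · intro x y
    rw [hm, h0, h0, hm1]
    simp only [lt_irrefl, true_and, false_or, AddMonoidHom.comp_apply, res_ext0,
      AddMonoidHom.coe_coe]
    constructor
    · rintro (h | ⟨h, _⟩)
      · exact h.le
      · exact h.le
    · intro h
      rcases h.lt_or_eq with h1 | h1
      · exact Or.inl h1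
      · right
        refine ⟨h1, ?_⟩
        rw [m'.toSyn.injective h1]
  · intro x w hw
    rw [hm, h0] at hw
    have hw0 : pw W sᶜ w = 0 := by
      rcases hw with h | ⟨h, _⟩
      · omega
      · exact h
    rw [pw_eq_zero hW.1] at hw0
    refine ⟨res s w, ?_⟩
    ext i
    by_cases hi : i ∈ s
    · have := ext0_coe s (res s w) ⟨i, hi⟩
      rw [this]
      rfl
    · rw [ext0_notMem s _ hi]
      by_contra hne
      exact hw0 i hne hi

lemma RG_restrict {a : σ → Fin d → ℤ} {m : MonomialOrder.{u, u} σ} {u v : s →₀ ℕ}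
    (h : RG m a (ext0 s u) (ext0 s v)) :
    ∃ m' : MonomialOrder.{u, u} s, RG m' (fun i : s => a i) u v := by
  obtain ⟨m', hm'⟩ := exists_restrict s m
  obtain ⟨h1, h2, h3, h4⟩ := h
  have huv : deg (fun i : s => a i) u = deg (fun i : s => a i) v := by
    rw [← deg_ext0, ← deg_ext0]
    exact h1
  have hstd : ∀ w : s →₀ ℕ, Std m a (ext0 s w) → Std m' (fun i : s => a i) w := by
    intro w hw x hx
    rw [hm']
    apply hw
    rw [deg_ext0, deg_ext0]
    exact hx
  refine ⟨m', huv, hstd v h2, ?_, ?_⟩
  · intro hu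
    have h5 := hu v huv.symm
    rw [hm'] at h5
    have h6 := h2 (ext0 s u) h1
    have h7 := m.toSyn.injective (le_antisymm h5 h6)
    rw [h7] at h3
    exact h3 h2
  · intro w hw hne
    apply hstd
    exact h4 _ (ext0_mono s hw) fun h => hne (ext0_injective s h)

lemma RG_extend [Finite σ] {a : σ → Fin d → ℤ} {W : σ → ℕ} (hW : GoodWeight a W)
    {m' : MonomialOrder.{u, u} s} {u v : s →₀ ℕ}
    (h : RG m' (fun i : s => a i) u v) :
    ∃ m : MonomialOrder.{u, u} σ, RG m a (ext0 s u) (ext0 s v) := by
  obtain ⟨m, hm, hback⟩ := exists_extend s hW m'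
  obtain ⟨h1, h2, h3, h4⟩ := h
  have huv : deg a (ext0 s u) = deg a (ext0 s v) := by
    rw [deg_ext0, deg_ext0]
    exact h1
  have hstd : ∀ w : s →₀ ℕ, Std m' (fun i : s => a i) w → Std m a (ext0 s w) := by
    intro w hw x hx
    by_contra hlt
    rw [not_le] at hlt
    obtain ⟨x', rfl⟩ := hback w x hlt.le
    rw [deg_ext0, deg_ext0] at hx
    have := hw x' hx
    rw [← hm] at this
    exact absurd this (not_le.mpr hlt)
  refine ⟨m, huv, hstd v h2, ?_, ?_⟩
  · intro hu
    have h5 := hu (ext0 s v) huv.symm
    rw [hm] at h5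
    have h6 := h2 u h1
    have h7 := m'.toSyn.injective (le_antisymm h5 h6)
    rw [h7] at h3
    exact h3 h2
  · intro w hw hne
    obtain ⟨w', rfl, hw'⟩ := exists_ext0_of_le s hw
    apply hstd
    refine h4 _ hw' ?_
    rintro rfl
    exact hne rfl

/-- a polynomial in fewer variables that becomes a binomial is a binomial. -/
lemma rename_eq_binomial {f : MvPolynomial s k} {p q : σ →₀ ℕ} (hne : p ≠ q)
    (h : rename (Subtype.val : s → σ) f = monomial p (1 : k) - monomial q (1 : k)) :
    ∃ u v : s →₀ ℕ, p = ext0 s u ∧ q = ext0 s v ∧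
      f = monomial u (1 : k) - monomial v (1 : k) := by
  classical
  have hp : coeff p (rename (Subtype.val : s → σ) f) ≠ 0 := by
    rw [h, coeff_sub, coeff_monomial, coeff_monomial, if_pos rfl, if_neg (Ne.symm hne), sub_zero]
    exact one_ne_zero
  have hq : coeff q (rename (Subtype.val : s → σ) f) ≠ 0 := by
    rw [h, coeff_sub, coeff_monomial, coeff_monomial, if_pos rfl, if_neg hne, zero_sub]
    exact neg_ne_zero.mpr one_ne_zero
  obtain ⟨u, hu, _⟩ := coeff_rename_ne_zero _ _ _ hp
  obtain ⟨v, hv, _⟩ := coeff_rename_ne_zero _ _ _ hq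
  refine ⟨u, v, hu.symm, hv.symm, ?_⟩
  apply rename_injective _ (Subtype.val_injective : Function.Injective (Subtype.val : s → σ))
  rw [h, map_sub, rename_monomial_ext0, rename_monomial_ext0, ← hu, ← hv]
  rfl

lemma goodWeight_restrict {a : σ → Fin d → ℤ} {W : σ → ℕ} (hW : GoodWeight a W) :
    GoodWeight (fun i : s => a i) (fun i : s => W i) := by
  refine ⟨fun i => hW.1 i, fun u v h => ?_⟩
  have h1 : ∀ w : s →₀ ℕ, Finsupp.weight W (ext0 s w) = Finsupp.weight (fun i : s => W i) w := by
    intro w
    rw [ext0_apply, Finsupp.weight_apply, Finsupp.weight_apply, Finsupp.sum_mapDomain_index]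
    · intro _
      exact zero_smul _ _
    · intro _ _ _
      exact add_smul _ _ _
  rw [← h1, ← h1]
  apply hW.2
  rw [deg_ext0, deg_ext0, h]

lemma mem_groebner_of_rename {a : σ → Fin d → ℤ} {f : MvPolynomial s k}
    (h : rename (Subtype.val : s → σ) f ∈ universalGroebner k a) :
    f ∈ universalGroebner k (fun i : s => a i) := by
  rw [mem_universalGroebner] at h
  obtain ⟨m, p, q, hRG, heq⟩ := h
  have hne : p ≠ q := ne_of_std hRG.2.1 hRG.2.2.1
  obtain ⟨u, v, rfl, rfl, rfl⟩ := rename_eq_binomial s hne heq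
  obtain ⟨m', h'⟩ := RG_restrict s hRG
  rw [mem_universalGroebner]
  exact ⟨m', u, v, h', rfl⟩

lemma rename_mem_groebner [Finite σ] {a : σ → Fin d → ℤ} {W : σ → ℕ} (hW : GoodWeight a W)
    {f : MvPolynomial s k} (h : f ∈ universalGroebner k (fun i : s => a i)) :
    rename (Subtype.val : s → σ) f ∈ universalGroebner k a := by
  rw [mem_universalGroebner] at h
  obtain ⟨m, u, v, hRG, rfl⟩ := h
  obtain ⟨m', h'⟩ := RG_extend s hW hRG
  rw [mem_universalGroebner]
  refine ⟨m', _, _, h', ?_⟩
  rw [map_sub, rename_monomial_ext0, rename_monomial_ext0]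

lemma mem_markov_of_rename [Finite σ] {a : σ → Fin d → ℤ} {W : σ → ℕ} (hW : GoodWeight a W)
    {f : MvPolynomial s k} (h : rename (Subtype.val : s → σ) f ∈ universalMarkov k a) :
    f ∈ universalMarkov k (fun i : s => a i) := by
  rw [mem_universalMarkov hW] at h
  obtain ⟨p, q, hdeg, hconn, heq⟩ := h
  have hne : p ≠ q := by
    rintro rfl
    exact hconn Relation.ReflTransGen.refl
  obtain ⟨u, v, rfl, rfl, rfl⟩ := rename_eq_binomial s hne heq
  rw [mem_universalMarkov (goodWeight_restrict s hW)]
  refine ⟨u, v, ?_, fun h => hconn (conn_ext0 s h), rfl⟩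
  rw [← deg_ext0, ← deg_ext0]
  exact hdeg

lemma neg_mem_markov [Finite σ] {a : σ → Fin d → ℤ} {W : σ → ℕ} (hW : GoodWeight a W)
    {f : MvPolynomial σ k} (h : f ∈ universalMarkov k a) : -f ∈ universalMarkov k a := by
  rw [mem_universalMarkov hW] at h ⊢
  obtain ⟨u, v, h1, h2, rfl⟩ := h
  exact ⟨v, u, h1.symm, fun h => h2 (conn_symm h), neg_sub _ _⟩

/-- the decisive step: components stay separated in the larger fibre. -/
lemma rename_mem_markov [Finite σ] {a : σ → Fin d → ℤ} {W : σ → ℕ} (hW : GoodWeight a W)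
    (H : universalGroebner k a ⊆ universalMarkov k a)
    {f : MvPolynomial s k} (h : f ∈ universalMarkov k (fun i : s => a i)) :
    rename (Subtype.val : s → σ) f ∈ universalMarkov k a := by
  have hW' := goodWeight_restrict s hW
  rw [mem_universalMarkov hW'] at h
  obtain ⟨u, v, hdeg, hconn, rfl⟩ := h
  obtain ⟨m, c, e, hc, he, hRG⟩ := exists_edge hW' hdeg hconn
  have h1 : (monomial c (1 : k) - monomial e (1 : k)) ∈
      universalGroebner k (fun i : s => a i) := by
    rw [mem_universalGroebner]
    exact ⟨m, c, e, hRG, rfl⟩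
  have h2 := H (rename_mem_groebner s hW h1)
  rw [map_sub, rename_monomial_ext0, rename_monomial_ext0, mem_universalMarkov hW] at h2
  obtain ⟨p, q, _, hpq, heq⟩ := h2
  have hne : ext0 s c ≠ ext0 s e := fun h =>
    ne_of_std hRG.2.1 hRG.2.2.1 (ext0_injective s h)
  have hce : ¬ Conn a (ext0 s c) (ext0 s e) := by
    rcases binomial_eq (k := k) hne heq with ⟨h3, h4⟩ | ⟨h3, h4⟩
    · rw [h3, h4]
      exact hpq
    · rw [h3, h4]
      exact fun h => hpq (conn_symm h)
  rw [map_sub, rename_monomial_ext0, rename_monomial_ext0, mem_universalMarkov hW]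
  refine ⟨_, _, ?_, ?_, rfl⟩
  · rw [deg_ext0, deg_ext0]
    exact hdeg
  · intro h
    exact hce (conn_trans (conn_symm (conn_ext0 s hc)) (conn_trans h (conn_ext0 s he)))

theorem generalizedRobust_restrict [Finite σ] (a : σ → Fin d → ℤ)
    (hpos : ∃ w : Fin d → ℚ, ∀ i, 0 < ∑ j, w j * (a i j : ℚ))
    (H : GeneralizedRobust k a) : GeneralizedRobust k (fun i : s => a i) := by
  obtain ⟨W, hW⟩ := exists_goodWeight a hpos
  apply Set.Subset.antisymm
  · intro f hf
    exact mem_markov_of_rename s hW (H ▸ rename_mem_groebner s hW hf)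
  · intro f hf
    exact mem_groebner_of_rename s (H ▸ rename_mem_markov s hW H.subset hf)

theorem generalizedRobustUpToSign_restrict [Finite σ] (a : σ → Fin d → ℤ)
    (hpos : ∃ w : Fin d → ℚ, ∀ i, 0 < ∑ j, w j * (a i j : ℚ))
    (H : GeneralizedRobustUpToSign k a) :
    GeneralizedRobustUpToSign k (fun i : s => a i) := by
  obtain ⟨W, hW⟩ := exists_goodWeight a hpos
  have hsub : universalGroebner k a ⊆ universalMarkov k a := by
    intro f hf
    rcases (H f).mp (Or.inl hf) with h | h
    · exact h
    · have := neg_mem_markov hW h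
      rwa [neg_neg] at this
  have h1 : ∀ f : MvPolynomial s k, f ∈ universalGroebner k (fun i : s => a i) →
      f ∈ universalMarkov k (fun i : s => a i) := fun f hf =>
    mem_markov_of_rename s hW (hsub (rename_mem_groebner s hW hf))
  have h2 : ∀ f : MvPolynomial s k, f ∈ universalMarkov k (fun i : s => a i) →
      (f ∈ universalGroebner k (fun i : s => a i) ∨
        -f ∈ universalGroebner k (fun i : s => a i)) := by
    intro f hf
    rcases (H _).mpr (Or.inl (rename_mem_markov s hW hsub hf)) with h | h
    · exact Or.inl (mem_groebner_of_rename s h)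
    · right
      apply mem_groebner_of_rename s
      rw [map_neg]
      exact h
  intro f
  constructor
  · rintro (h | h)
    · exact Or.inl (h1 f h)
    · exact Or.inr (h1 _ h)
  · rintro (h | h)
    · exact h2 f h
    · rcases h2 _ h with h3 | h3
      · exact Or.inr h3
      · rw [neg_neg] at h3
        exact Or.inl h3

end Main

/-- **MP_1df74f_al, Q1, answered positively.**  Let `a : σ → ℤ^d` be a finite family of vectors
(for instance the inclusion of a finite set `A`) on which some rational linear form is positive,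
and let `s` be a set of indices.  If the toric ideal of `a` is generalized robust, then so is the
toric ideal of the subfamily indexed by `s`; and the same holds if binomials are taken only up to
sign. -/
theorem result : ∀ (k : Type v) [Field k] (d : ℕ) (σ : Type u) [Finite σ]
    (a : σ → Fin d → ℤ), (∃ w : Fin d → ℚ, ∀ i, 0 < ∑ j, w j * (a i j : ℚ)) →
    ∀ s : Set σ,
    (GeneralizedRobust k a → GeneralizedRobust k (fun i : s => a i)) ∧
    (GeneralizedRobustUpToSign k a → GeneralizedRobustUpToSign k (fun i : s => a i)) :=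
  fun _ _ _ _ _ a hpos s =>
    ⟨generalizedRobust_restrict s a hpos, generalizedRobustUpToSign_restrict s a hpos⟩

end Pool.Agent.Results.MP_1df74f_al.Eliminate
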